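import Pool.Agent.X39.Near.JQ2

/-!
# `log q_i`, `J (q_i)`, `D J (q_i)`, `D² J (q_i)` for multiplicatively independent polynomials `q_i = p_i (t)`, at ALL
# algebraic `t` close to any number outside a set of dimension zero

Bertrand's question: if `q_1`, `q_2` are algebraic numbers in the punctured unit disc and `P (J (q_1), J (q_2)) = 0` for an
irreducible rational polynomial `P`, is `P` a modular polynomial, and are `q_1`, `q_2` multiplicatively dependent? So, if
`q_1`, `q_2` are multiplicatively independent, there should be no relation. We prove, outside ONE set `E` of complex numbers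
of Hausdorff dimension `0` (for all polynomials, number fields, degrees and scales): for every `x` and all polynomials
`p_1, …, p_n` with algebraic coefficients, multiplicatively independent modulo constants, with `0 < |p_i (x)| < 1`, the `4 n`
numbers `log q_i`, `J (q_i)`, `D J (q_i)`, `D² J (q_i)` for `q_i = p_i (t)`, for ALL algebraic `t` in a number field close to
`x`, satisfy no relation of bounded degree with coefficients of polynomial size, even approximately; here the coefficients
may be polynomials in arbitrary constants `ξ_1, …, ξ_g` fixed in advance (for instance `π`). For `n = 2` this contains: all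
nonzero integral polynomials `P` of degree at most `d` and of height at most `T ^ A` satisfy
`|P (J (q_1), J (q_2))| > T ^ (-B)`.

Proof. (1) The functions `J (p_1 (t))`, `J (p_2 (t))` are algebraically independent (`Pool.Agent.X39.Near.Sch`): otherwise
the Schwarzian equation of `j` and the independence of `t`, `j (τ_1)`, `j' (τ_1)` over the constants give `{τ_1, t} = {τ_2, t}`
for `τ_i = log p_i (t) / 2 π i`, so that `τ_1` and `τ_2` are related by a matrix with constant entries, which contradicts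
the algebraic independence of `t`, `log p_1 (t)`, `log p_2 (t)`. (2) So the theorem on period matrices (`Y776.AxJ`) gives the
algebraic independence of the `4 n` functions, over `ℂ(t)`. (3) The levels of the library give, on compact sets, at most
`C T ^ ε` exceptional points of height `T`, for every `ε > 0`, and so a limsup set of dimension `0`
(`Pool.Agent.X39.Near`); all polynomials and all branches of the logarithms are treated at the same time.
-/

set_option autoImplicit false

open NumberField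

namespace Pool.Agent.Results.MP_8f9d9d_nt.ApproximationsOfAllNumbers

open Pool.Agent.X39.Near (Size Dep Br BrD)

/-- the normalised Eisenstein series of weight `4` as a function of the nome -/
noncomputable def E4 (q : ℂ) : ℂ :=
  1 + 240 * ∑' m : ℕ, ((ArithmeticFunction.sigma 3 (m + 1) : ℕ) : ℂ) * q ^ (m + 1)

/-- the normalised Eisenstein series of weight `6` as a function of the nome -/
noncomputable def E6 (q : ℂ) : ℂ :=
  1 - 504 * ∑' m : ℕ, ((ArithmeticFunction.sigma 5 (m + 1) : ℕ) : ℂ) * q ^ (m + 1)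

/-- the function `J (q) = q⁻¹ + 744 + 196884 q + ⋯` on the punctured unit disc -/
noncomputable def J (q : ℂ) : ℂ := 1728 * E4 q ^ 3 / (E4 q ^ 3 - E6 q ^ 2)

/-- the `4 n` numbers `log q_i = ℓ_i`, `J (q_i)`, `D J (q_i)`, `D² J (q_i)`, where `D = q d/dq` and `q_i = exp ℓ_i` -/
noncomputable def value {n : ℕ} (ℓ : Fin n → ℂ) : Fin n ⊕ (Fin n × Fin 3) → ℂ
  | Sum.inl i => ℓ i
  | Sum.inr k => ![J (Complex.exp (ℓ k.1)), Complex.exp (ℓ k.1) * deriv J (Complex.exp (ℓ k.1)),
      Complex.exp (ℓ k.1) * deriv (fun u => u * deriv J u) (Complex.exp (ℓ k.1))] k.2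

/-- The polynomials are multiplicatively independent modulo constants. -/
def Independent {n : ℕ} (p : Fin n → Polynomial ℂ) : Prop :=
  ∀ (a b : Fin n → ℕ) (c : ℂ), ∏ k, p k ^ a k = Polynomial.C c * ∏ k, p k ^ b k → a = b

/-- The polynomials have algebraic coefficients. -/
def AlgebraicCoefficients {n : ℕ} (p : Fin n → Polynomial ℂ) : Prop := ∀ k i, IsAlgebraic ℚ ((p k).coeff i)

/-- There is no relation between the numbers `v`: (1) in the sense of `Dep`, (2) for integral polynomials. -/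
def NoRelation {K : Type} {g : ℕ} (v : K → ℂ) (ξ : Fin g → ℂ) (F : Type) [Field F] [NumberField F] (ι : F →+* ℂ)
    (d A : ℕ) (B T : ℝ) : Prop :=
  ¬ Dep v ξ F ι d A B T ∧
  ∀ P : MvPolynomial K ℤ, P ≠ 0 → (∀ j, P.degreeOf j ≤ d) →
    (∀ e, |((P.coeff e : ℤ) : ℝ)| ≤ T ^ A) → T ^ (-B) < ‖MvPolynomial.aeval v P‖

theorem indC_of {s : ℕ} {U : Set ℂ} {l : Fin s → ℂ → ℂ} (h : ∀ P : MvPolynomial (Option (Fin s)) ℂ,
    (∀ t ∈ U, MvPolynomial.eval (fun o => o.elim t fun y => l y t) P = 0) → P = 0) : Pool.Agent.Y776.Fam.IndC U l := by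
  classical
  intro m c hm
  have h1 := h (∑ k, MvPolynomial.C (m k : ℂ) * MvPolynomial.X (some k) - MvPolynomial.C c) (by
    intro t ht
    simp [hm t ht])
  funext k
  have e1 := congrArg (MvPolynomial.eval (fun o : Option (Fin s) => o.elim 0 (fun j => if j = k then 1 else 0))) h1
  have e2 := congrArg (MvPolynomial.eval (fun _ : Option (Fin s) => (0 : ℂ))) h1
  simp at e1 e2
  rw [e2, sub_zero] at e1
  exact_mod_cast e1

theorem nonconstant {n : ℕ} {p : Fin n → Polynomial ℂ} (hp : Independent p) (k : Fin n) (c : ℂ) : p k ≠ Polynomial.C c := by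
  classical
  intro h0
  have h1 := hp (fun j => if j = k then 1 else 0) (fun _ => 0) c (by
    rw [Finset.prod_eq_single k (fun j _ hj => by simp [hj]) (fun h => absurd (Finset.mem_univ k) h)]
    simp [h0])
  have h2 := congrFun h1 k
  simp at h2

/-- the domain of the branches -/
def dom {n : ℕ} (p : Fin n → Polynomial ℂ) (b : Fin n → ℤ) : Set ℂ := {z | ∀ i, (p i).eval z ∈ BrD (b i) ∧ ‖(p i).eval z‖ < 1}

theorem dom_open {n : ℕ} (p : Fin n → Polynomial ℂ) (b : Fin n → ℤ) : IsOpen (dom p b) := by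
  have h1 : dom p b = ⋂ k, ((fun z => (p k).eval z) ⁻¹' BrD (b k) ∩ (fun z => ‖(p k).eval z‖) ⁻¹' Set.Iio 1) := by
    ext z
    simp [dom]
  rw [h1]
  exact isOpen_iInter_of_finite fun k => ((Pool.Agent.X39.Near.BrD_open _).preimage (p k).continuous).inter
    (isOpen_Iio.preimage (p k).continuous.norm)

theorem br_an {n : ℕ} (p : Fin n → Polynomial ℂ) (b : Fin n → ℤ) (k : Fin n) {z : ℂ} (hz : z ∈ dom p b) :
    AnalyticAt ℂ (fun z => Br (b k) ((p k).eval z)) z :=
  AnalyticAt.fun_comp (g := Br (b k)) (f := fun z => (p k).eval z) (Pool.Agent.X39.Near.Br_an (hz k).1)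
    ((p k).differentiable.analyticAt z)

/-- the points of the upper half-plane -/
noncomputable def tau {n : ℕ} (p : Fin n → Polynomial ℂ) (b : Fin n → ℤ) (i : Fin n) (z : ℂ) : ℂ :=
  Br (b i) ((p i).eval z) / (2 * (Real.pi : ℂ) * Complex.I)

theorem ww_tau {n : ℕ} (p : Fin n → Polynomial ℂ) (b : Fin n → ℤ) (i : Fin n) (z : ℂ) :
    Pool.Agent.X39.Near.Sch.ww (tau p b) i z = Br (b i) ((p i).eval z) := by
  rw [Pool.Agent.X39.Near.Sch.ww, tau, mul_div_cancel₀ _ Complex.two_pi_I_ne_zero]

theorem ind {n : ℕ} {p : Fin n → Polynomial ℂ} (hp : Independent p) {b : Fin n → ℤ} {t₀ : ℂ} {r : ℝ} (hr : 0 < r)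
    (hd : Metric.ball t₀ r ⊆ dom p b) :
    Pool.Agent.Y776.Fam.IndC (Metric.ball t₀ r) (Pool.Agent.X39.Near.Sch.ww (tau p b)) := by
  have h1 : Pool.Agent.X255.RH.Indep (Metric.ball t₀ r) (fun k z => Br (b k) ((p k).eval z)) := by
    refine Pool.Agent.X255.RH.logR_indep (convex_ball _ _).isPreconnected Metric.isOpen_ball
      (Metric.nonempty_ball.2 hr) p (fun _ => 1) (fun k h => nonconstant hp k 0 (by simpa using h)) (fun _ => one_ne_zero)
      (fun m n c h => ?_) _ (fun k z hz => br_an p b k (hd hz)) fun k z hz => ?_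
    · apply hp m n c
      simpa using h
    · rw [Pool.Agent.X39.Near.exp_Br (hd hz k).1]
      simp
  have h2 := indC_of (Pool.Agent.X39.Near.aindep_of_indep h1)
  intro m c hm
  exact h2 m c fun z hz => by
    rw [← hm z hz]
    exact Finset.sum_congr rfl fun i _ => by rw [ww_tau]

theorem many {n : ℕ} {p : Fin n → Polynomial ℂ} (hp : Independent p) {b : Fin n → ℤ} {t₀ : ℂ} {r : ℝ} (hr : 0 < r)
    (hd : Metric.ball t₀ r ⊆ dom p b) : Pool.Agent.X39.Near.JQ.Many (Metric.ball t₀ r) (tau p b) p := by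
  have hpi := Complex.two_pi_I_ne_zero
  have hexp : ∀ i, ∀ z ∈ Metric.ball t₀ r, Complex.exp (2 * (Real.pi : ℂ) * Complex.I * tau p b i z) = (p i).eval z := by
    intro i z hz
    rw [tau, mul_div_cancel₀ _ hpi, Pool.Agent.X39.Near.exp_Br (hd hz i).1]
  refine
    { op := Metric.isOpen_ball
      conn := (convex_ball _ _).isPreconnected
      ne := Metric.nonempty_ball.2 hr
      an := fun i z hz => (br_an p b i (hd hz)).div analyticAt_const hpi
      im := fun i z hz => ?_
      nc := fun i c => ?_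
      pair := fun i k hik => Pool.Agent.X39.Near.JQ.pair_of (ind hp hr hd) i k hik
      exp := hexp }
  · have h1 : ‖(p i).eval z‖ < 1 := (hd hz i).2
    rw [← Pool.Agent.X39.Near.exp_Br (hd hz i).1, Complex.norm_exp, Real.exp_lt_one_iff] at h1
    have h2 : tau p b i z = -(Complex.I * Br (b i) ((p i).eval z)) / ((2 * Real.pi : ℝ) : ℂ) := by
      rw [tau]
      push_cast
      have := Complex.I_ne_zero
      have hp' : (Real.pi : ℂ) ≠ 0 := by exact_mod_cast Real.pi_ne_zero
      field_simp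
      rw [Complex.I_sq]
      ring
    rw [h2, Complex.div_ofReal_im]
    have h3 : (-(Complex.I * Br (b i) ((p i).eval z))).im = -(Br (b i) ((p i).eval z)).re := by
      simp
    rw [h3]
    exact div_pos (by linarith) (by positivity)
  · by_contra hcon
    push Not at hcon
    have h1 : ∀ z ∈ Metric.ball t₀ r, (p i - Polynomial.C (Complex.exp (2 * (Real.pi : ℂ) * Complex.I * c))).eval z = 0 := by
      intro z hz
      rw [Polynomial.eval_sub, Polynomial.eval_C, ← hexp i z hz, hcon z hz, sub_self]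
    have h2 : p i - Polynomial.C (Complex.exp (2 * (Real.pi : ℂ) * Complex.I * c)) = 0 := by
      refine Polynomial.eq_zero_of_infinite_isRoot _ (Set.Infinite.mono h1 ?_)
      exact (infinite_of_mem_nhds t₀ (Metric.ball_mem_nhds t₀ hr))
    exact nonconstant hp i _ (sub_eq_zero.1 h2)

/-- the functions -/
noncomputable def fn {n : ℕ} (p : Fin n → Polynomial ℂ) (b : Fin n → ℤ) : Fin n ⊕ (Fin n × Fin 3) → ℂ → ℂ
  | Sum.inl i, z => Br (b i) ((p i).eval z)
  | Sum.inr k, z => Pool.Agent.X39.Near.JQ.three ((p k.1).eval z) k.2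

theorem fn_eq {n : ℕ} (p : Fin n → Polynomial ℂ) (b : Fin n → ℤ) : fn p b = Pool.Agent.X39.Near.JQ.yL (tau p b) p := by
  funext k z
  rcases k with i | k
  · exact (ww_tau p b i z).symm
  · rfl

theorem exists_ball {n : ℕ} {p : Fin n → Polynomial ℂ} {b : Fin n → ℤ} {t₀ : ℂ} (ht : t₀ ∈ dom p b) :
    ∃ r : ℝ, 0 < r ∧ Metric.ball t₀ r ⊆ dom p b := Metric.isOpen_iff.1 (dom_open p b) t₀ ht

/-- the index set -/
def Ix : Type := Σ n : ℕ, {p : Fin n → Polynomial ℂ // AlgebraicCoefficients p} × (Fin n → ℤ)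

instance : Countable Ix := by
  have h1 : Countable {z : ℂ // IsAlgebraic ℚ z} := (Algebraic.countable ℚ ℂ).to_subtype
  have h2 : ∀ s : ℕ, Countable {p : Fin s → Polynomial ℂ // AlgebraicCoefficients p} := by
    intro s
    have h3 : Function.Injective (fun p : {p : Fin s → Polynomial ℂ // AlgebraicCoefficients p} =>
        (fun k => (⟨(p.1 k).natDegree, fun i => ⟨(p.1 k).coeff i, p.2 k i⟩⟩ :
          Σ n : ℕ, Fin (n + 1) → {z : ℂ // IsAlgebraic ℚ z}))) := by
      intro p q h
      apply Subtype.ext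
      funext k
      have h4 := congrFun h k
      have h5 : (p.1 k).natDegree = (q.1 k).natDegree := congrArg Sigma.fst h4
      have h6 : ∀ x y : (Σ n : ℕ, Fin (n + 1) → {z : ℂ // IsAlgebraic ℚ z}), x = y →
          ∀ i : ℕ, (if hi : i < x.1 + 1 then ((x.2 ⟨i, hi⟩ : {z : ℂ // IsAlgebraic ℚ z}) : ℂ) else 0) =
            (if hi : i < y.1 + 1 then ((y.2 ⟨i, hi⟩ : {z : ℂ // IsAlgebraic ℚ z}) : ℂ) else 0) := by
        rintro x y rfl i
        rfl
      refine Polynomial.ext fun i => ?_
      have h7 := h6 _ _ h4 i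
      by_cases hi : i < (p.1 k).natDegree + 1
      · simp only [hi, h5 ▸ hi, dif_pos] at h7
        exact h7
      · rw [Polynomial.coeff_eq_zero_of_natDegree_lt (by omega), Polynomial.coeff_eq_zero_of_natDegree_lt (by omega)]
    exact h3.countable
  unfold Ix
  infer_instance

/-- **Theorem.** Let `ξ_1, …, ξ_g` be complex numbers. There is a set `E` of complex numbers of Hausdorff dimension `0` such
that for all `x` outside `E`, all `n ≥ 1`, all polynomials `p_1, …, p_n` with algebraic coefficients, multiplicatively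
independent modulo constants, all `l_1, …, l_n` with `exp l_i = p_i (x)` and `|p_i (x)| < 1`, all number fields `F` with an
embedding `ι` in `ℂ`, all `d`, `A` and `ω > 0` there are `B`, `T₁` such that for all `T ≥ T₁` and all `t ∈ F`, quotients of
integers with conjugates at most `T`, with `|ι t - x| ≤ T ^ (-ω)`, and the logarithms `ℓ_i` of `q_i = p_i (ι t)` with
`|ℓ_i - l_i| < 1`, there is no relation between the `4 n` numbers `ℓ_i = log q_i`, `J (q_i)`, `D J (q_i)`, `D² J (q_i)`. -/
theorem result {g : ℕ} (ξ : Fin g → ℂ) :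
    ∃ E : Set ℂ, dimH E = 0 ∧ ∀ x : ℂ, x ∉ E → ∀ (n : ℕ), 0 < n → ∀ p : Fin n → Polynomial ℂ, AlgebraicCoefficients p →
      Independent p → ∀ l : Fin n → ℂ, (∀ i, Complex.exp (l i) = (p i).eval x ∧ ‖(p i).eval x‖ < 1) →
      ∀ (F : Type) [Field F] [NumberField F] (ι : F →+* ℂ) (d A : ℕ) (ω : ℝ), 0 < ω → ∃ B T₁ : ℝ, ∀ T : ℝ, T₁ ≤ T →
        ∀ t : F, Size F T t → ‖ι t - x‖ ≤ T ^ (-ω) → ∀ ℓ : Fin n → ℂ, (∀ i, Complex.exp (ℓ i) = (p i).eval (ι t)) →
          (∀ i, ‖ℓ i - l i‖ < 1) → NoRelation (value ℓ) ξ F ι d A B T := by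
  classical
  have H : ∀ i : Ix, ∃ E : Set ℂ, dimH E = 0 ∧ (0 < i.1 → Independent i.2.1.1 → ∀ x ∈ dom i.2.1.1 i.2.2, x ∉ E →
      ∀ (F : Type) [Field F] [NumberField F] (ι : F →+* ℂ) (d A : ℕ) (ω : ℝ), 0 < ω → ∃ B T₁ : ℝ, ∀ T : ℝ, T₁ ≤ T →
        ∀ t : F, Size F T t → ‖ι t - x‖ ≤ T ^ (-ω) →
          ¬ Dep (fun k => fn i.2.1.1 i.2.2 k (ι t)) ξ F ι d A B T) := by
    intro i
    by_cases hi : 0 < i.1 ∧ Independent i.2.1.1
    · obtain ⟨E, h1, h2, -⟩ := Pool.Agent.X39.Near.near_dep (dom i.2.1.1 i.2.2) (dom_open _ _) (fn i.2.1.1 i.2.2)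
        (fun k z hz => by
          obtain ⟨r, hr, hd⟩ := exists_ball hz
          rw [fn_eq]
          exact Pool.Agent.X39.Near.JQ.yL_an (many hi.2 hr hd) k z (Metric.mem_ball_self hr))
        (fun z hz => by
          obtain ⟨r, hr, hd⟩ := exists_ball hz
          rw [fn_eq]
          exact (many hi.2 hr hd).loc_logs hi.1 (ind hi.2 hr hd) z (Metric.mem_ball_self hr)) ξ
      exact ⟨E, h1, fun _ _ => h2⟩
    · exact ⟨∅, dimH_empty, fun h h' => absurd ⟨h, h'⟩ hi⟩
  choose E hE0 hE using H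
  refine ⟨⋃ i, E i, by rw [dimH_iUnion]; simp [hE0], fun x hx n hn p hpa hp l hl F _ _ ι d A ω hω => ?_⟩
  choose b hb using fun k => Pool.Agent.X39.Near.exists_br (l k)
  have hdom : x ∈ dom p b := by
    intro k
    have h1 := (Pool.Agent.X39.Near.Br_eq (hb k (l k) (by simp))).1
    rw [(hl k).1] at h1
    exact ⟨h1, (hl k).2⟩
  obtain ⟨B, T₁, h2⟩ := hE ⟨n, ⟨p, hpa⟩, b⟩ hn hp x hdom (fun h => hx (Set.mem_iUnion.2 ⟨_, h⟩)) F ι d A ω hω
  refine ⟨B, max T₁ 1, fun T hT t ht htx ℓ hℓ hℓl => ?_⟩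
  have h3 : (fun k => fn p b k (ι t)) = value ℓ := by
    funext k
    rcases k with i | k
    · show Br (b i) ((p i).eval (ι t)) = ℓ i
      rw [← hℓ i]
      exact (Pool.Agent.X39.Near.Br_eq (hb i (ℓ i) (hℓl i))).2
    · show Pool.Agent.X39.Near.JQ.three ((p k.1).eval (ι t)) k.2 = _
      rw [← hℓ k.1]
      rfl
  have h4 : ¬ Dep (value ℓ) ξ F ι d A B T := by
    have h5 := h2 T ((le_max_left _ _).trans hT) t ht htx
    change ¬ Dep (fun k => fn p b k (ι t)) ξ F ι d A B T at h5
    rwa [h3] at h5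
  have hT0 : 0 < T := lt_of_lt_of_le one_pos ((le_max_right _ _).trans hT)
  exact ⟨h4, fun P hP hPd hPA => Pool.Agent.X39.Near.int_of_not_dep h4 hT0 P hP hPd fun e => by
      exact_mod_cast hPA e⟩

end Pool.Agent.Results.MP_8f9d9d_nt.ApproximationsOfAllNumbers
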